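import Pool.Agent.H92.SG.Stmts
import Pool.Agent.H92.SG.Word

/-!
# Board sg7, module MKE: the ribbon disc of `7_7 # -7_7`
-/

namespace Pool.Agent.H98.SG

open Pool.Agent.H92.SG

/-- The permutation of a letter. -/
def pl (l : ℕ × Bool) (i : ℕ) : ℕ := if i = l.1 then l.1 + 1 else if i = l.1 + 1 then l.1 else i

/-- The permutation of a word. -/
def pw : Word → ℕ → ℕ
  | [], i => i
  | l :: w, i => pl l (pw w i)

theorem perm_lv (l : ℕ × Bool) (i : ℕ) : perm (lv l) i = pl l i := by
  obtain ⟨j, s⟩ := l
  cases s <;> simp [lv, perm_σ, pl, Equiv.swap_apply_def]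

theorem perm_wv (w : Word) (i : ℕ) : perm (wv w) i = pw w i := by
  induction w generalizing i with
  | nil => simp [wv_nil, pw]
  | cons l w ih => simp [wv_cons, pw, ih, perm_lv]

/-- The words of the first three bands. -/
def wB1 : Word := [(2, true), (3, true), (2, false)]
def wB2 : Word := [(1, true), (2, true), (3, false), (4, true), (3, true), (2, false), (1, false)]
def wB3 : Word := [(0, true), (1, true), (2, true), (3, false), (4, false), (5, true), (4, true),
  (3, true), (2, false), (1, false), (0, false)]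
/-- The word of `β77`. -/
def wb : Word := [(0, false), (1, true), (0, false), (1, true), (2, false), (1, true), (2, false)]
/-- The word of the mirror image. -/
def wm : Word := [(3, true), (4, false), (3, true), (4, false), (5, true), (4, false), (5, true)]

theorem wv_wb : wv wb = β77 := by
  simp [wb, wv, lv, β77, mul_assoc]

theorem wv_wm : wv wm = (sh^[3]) (σ 0 * (σ 1)⁻¹ * σ 0 * (σ 1)⁻¹ * σ 2 * (σ 1)⁻¹ * σ 2) := by
  simp [wm, wv, lv, sh_σ, mul_assoc]

/-- The six bands. -/
def bands : List Word := [wB1, wB2, wB3, winv wb ++ winv wB3 ++ wb, winv wb ++ winv wB2 ++ wb,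
  winv wb ++ winv wB1 ++ wb]

theorem wv_mem {n : ℕ} (w : Word) (h : ∀ l ∈ w, l.1 + 1 < n) : wv w ∈ Bn n := by
  induction w with
  | nil => rw [wv_nil]; exact one_mem _
  | cons l w ih =>
    rw [wv_cons]
    refine mul_mem ?_ (ih fun l' hl' => h l' (List.mem_cons_of_mem _ hl'))
    have hl := h l List.mem_cons_self
    obtain ⟨j, s⟩ := l
    cases s
    · simp only [lv, Bool.false_eq_true, if_false]; exact inv_mem (σ_mem_Bn hl)
    · simp only [lv, if_true]; exact σ_mem_Bn hl

theorem band_of {n : ℕ} (u : Word) (i : ℕ) (s : Bool) (hu : ∀ l ∈ u, l.1 + 1 < n) (hi : i + 1 < n) :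
    IsBand n (wv (u ++ [(i, s)] ++ winv u)) := by
  refine ⟨wv u, wv_mem u hu, i, hi, ?_⟩
  rw [wv_append, wv_append, wv_winv, wv_cons, wv_nil, mul_one]
  cases s
  · right; simp [lv]
  · left; simp [lv]

theorem MKE_thm : MkEndStmt := by
  unfold MkEndStmt SurfMk
  have hprod : (bands.map wv).prod = wv (wm ++ wb) := by
    have : (bands.map wv).prod = wv (bands.flatten) := by
      simp [bands, wv_append, mul_assoc]
    rw [this]
    exact eqW_sound (by decide +kernel)
  refine ⟨0, bands.map wv, ?_, ?_, ?_, ?_⟩
  · intro x hx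
    simp only [bands, List.map_cons, List.map_nil, List.mem_cons, List.not_mem_nil, or_false] at hx
    rcases hx with rfl | rfl | rfl | rfl | rfl | rfl
    · exact band_of [(2, true)] 3 true (by decide) (by norm_num)
    · exact band_of [(1, true), (2, true), (3, false)] 4 true (by decide) (by norm_num)
    · exact band_of [(0, true), (1, true), (2, true), (3, false), (4, false)] 5 true (by decide)
        (by norm_num)
    · exact band_of (n := 7) (winv wb ++ [(0, true), (1, true), (2, true), (3, false), (4, false)])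
        5 false (by decide) (by norm_num)
    · exact band_of (n := 7) (winv wb ++ [(1, true), (2, true), (3, false)]) 4 false
        (by decide) (by norm_num)
    · exact band_of (n := 7) (winv wb ++ [(2, true)]) 3 false (by decide) (by norm_num)
  · rw [hprod, wv_append, wv_wb, wv_wm]
    simp [hp]
  · rfl
  · intro S h0 hS
    have key : ∀ w ∈ bands, ∀ i ∈ S, pw w i ∈ S := by
      intro w hw i hi
      rw [← perm_wv]
      exact hS _ (List.mem_map_of_mem hw) i hi
    have k3 := key wB3 (by simp [bands])
    have k1 := key wB1 (by simp [bands])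
    have k2 := key wB2 (by simp [bands])
    have k4 := key (winv wb ++ winv wB3 ++ wb) (by simp [bands])
    have k5 := key (winv wb ++ winv wB2 ++ wb) (by simp [bands])
    have k6 := key (winv wb ++ winv wB1 ++ wb) (by simp [bands])
    have h6 : 6 ∈ S := k3 0 h0
    have h3 : 3 ∈ S := k4 6 h6
    have h4 : 4 ∈ S := k6 0 h0
    have h2 : 2 ∈ S := k1 4 h4
    have h5 : 5 ∈ S := k5 2 h2
    have h1 : 1 ∈ S := k2 5 h5
    intro i hi
    have : i = 0 ∨ i = 1 ∨ i = 2 ∨ i = 3 ∨ i = 4 ∨ i = 5 ∨ i = 6 := by omega
    rcases this with rfl | rfl | rfl | rfl | rfl | rfl | rfl <;> assumption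

end Pool.Agent.H98.SG
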